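import Pool.Agent.Q169.ZD.Stm3

/-!
Job EXTW (project ZD of helper169): a Coxeter group is an extended Coxeter group.
Adapted from Pool/Agent/Q31/ZD/Ext.lean.
-/

set_option autoImplicit false

namespace Pool.Agent.Q68.ZD

open Pool.Agent.Q169.ZD Q27.Cox

section

variable {B : Type} {M : CoxeterMatrix B} {W : Type} [Group W] (cs : CoxeterSystem M W)

/-- the index set of a set of simple reflections -/
def idx (T : Set W) : Set B := {b | cs.simple b ∈ T}

theorem eq_image {T : Set W} (hT : T ⊆ Set.range cs.simple) : T = cs.simple '' idx cs T := by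
  ext s
  constructor
  · intro hs
    obtain ⟨b, rfl⟩ := hT hs
    exact ⟨b, hs, rfl⟩
  · rintro ⟨b, hb, rfl⟩
    exact hb

theorem closure_eq {T : Set W} (hT : T ⊆ Set.range cs.simple) :
    Subgroup.closure T = P cs (idx cs T) := by
  conv_lhs => rw [eq_image cs hT]
  rfl

end

/-- Job EXTW. -/
theorem extw : S_EXTW := by
  intro B M W _ cs
  have key : ∀ (T : Set W), T ⊆ Set.range cs.simple →
      ∀ m : W, (∀ t ∈ T, cs.length m < cs.length (t * m)) ↔ m ∈ L cs (idx cs T) := by
    intro T hT m
    constructor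
    · intro h j hj
      exact h _ hj
    · intro h t ht
      obtain ⟨b, rfl⟩ := hT ht
      exact h b ht
  refine ⟨{
    S := Set.range cs.simple
    len := fun g => cs.length g
    sq := ?_
    len_one := ?_
    len_inv := ?_
    len_mul := ?_
    len_smul := ?_
    len_muls := ?_
    conj := ?_
    desc := ?_
    lift := ?_
    par_decomp := ?_
    par_len := ?_
    par_desc := ?_ }, rfl, fun g => rfl⟩
  · rintro s ⟨b, rfl⟩
    exact cs.simple_mul_simple_self b
  · exact cs.length_one
  · intro g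
    exact cs.length_inv g
  · intro g h
    exact cs.length_mul_le _ _
  · rintro s ⟨b, rfl⟩ g
    exact cs.length_simple_mul _ _
  · rintro s ⟨b, rfl⟩ g
    exact cs.length_mul_simple _ _
  · rintro h hh s ⟨b, rfl⟩
    have h1 : h = 1 := cs.length_eq_zero_iff.1 hh
    exact ⟨b, by rw [h1]; simp⟩
  · intro g hg
    have h1 : g ≠ 1 := fun h => hg (cs.length_eq_zero_iff.2 h)
    obtain ⟨b, hb⟩ := cs.exists_rightDescent_of_ne_one h1
    exact ⟨cs.simple b, ⟨_, rfl⟩, hb⟩
  · rintro s ⟨b, rfl⟩ t ⟨c, rfl⟩ g h1 h2 h3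
    have h4 : g ∈ R cs {b} := by
      intro j hj
      rw [Set.mem_singleton_iff] at hj
      rw [hj]
      exact h2
    rcases deodhar_up h4 h1 with h6 | ⟨j, hj, h6⟩
    · have := h6 _ (Set.mem_singleton _)
      omega
    · rw [Set.mem_singleton_iff] at hj
      rw [h6, hj]
  · intro T hT g
    obtain ⟨y, hy, x, hx, he, hl⟩ := exists_decomp_L (cs := cs) (idx cs T) g
    refine ⟨y, ?_, x, ?_, ?_⟩
    · rw [closure_eq cs hT]
      exact hy
    · exact (key T hT x).2 hx
    · exact he
  · intro T hT u hu m hm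
    rw [closure_eq cs hT] at hu
    exact length_mul_L ((key T hT m).1 hm) hu
  · intro T hT u hu hu1
    rw [closure_eq cs hT] at hu
    obtain ⟨b, hb⟩ := cs.exists_leftDescent_of_ne_one hu1
    exact ⟨cs.simple b, descent_mem hu hb, hb⟩

end Pool.Agent.Q68.ZD
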