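import Pool.Agent.Q169.ZD.Stm3

/-!
Job GR (project ZD of helper169): a criterion for acyclicity of a based chain complex.
-/

set_option autoImplicit false

namespace Pool.Agent.Q68.ZD

open Pool.Agent.Q169.ZD

open scoped Classical

section

variable {X : Type} (deg : X → ℕ)

/-- supported in degree `n` -/
def Sp (n : ℕ) (z : X →₀ ℤ) : Prop := ∀ x, z x ≠ 0 → deg x = n

/-- linear extension -/
noncomputable def Lx (f : X → (X →₀ ℤ)) : (X →₀ ℤ) →ₗ[ℤ] (X →₀ ℤ) :=
  Finsupp.linearCombination ℤ f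

theorem Lx_eq (f : X → (X →₀ ℤ)) (z : X →₀ ℤ) : Lx f z = lext f z :=
  Finsupp.linearCombination_apply ℤ z

theorem Lx_single (f : X → (X →₀ ℤ)) (x : X) : Lx f (Finsupp.single x 1) = f x := by
  unfold Lx
  rw [Finsupp.linearCombination_single, one_smul]

theorem Lx_apply (f : X → (X →₀ ℤ)) (z : X →₀ ℤ) (y : X) :
    Lx f z y = ∑ x ∈ z.support, z x * f x y := by
  rw [Lx_eq]
  unfold lext Finsupp.sum
  rw [Finsupp.finsetSum_apply]
  rfl

/-- an element of the support of the image comes from an element of the support -/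
theorem Lx_ne {f : X → (X →₀ ℤ)} {z : X →₀ ℤ} {y : X} (h : Lx f z y ≠ 0) :
    ∃ x, z x ≠ 0 ∧ f x y ≠ 0 := by
  rw [Lx_apply] at h
  obtain ⟨x, hx, h1⟩ := Finset.exists_ne_zero_of_sum_ne_zero h
  exact ⟨x, Finsupp.mem_support_iff.1 hx, right_ne_zero_of_mul h1⟩

/-- the inclusion -/
noncomputable def inc (n : ℕ) : ({x : X // deg x = n} →₀ ℤ) →+ (X →₀ ℤ) :=
  Finsupp.mapDomain.addMonoidHom Subtype.val

/-- the restriction -/
noncomputable def res (n : ℕ) : (X →₀ ℤ) →+ ({x : X // deg x = n} →₀ ℤ) :=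
  Finsupp.subtypeDomainAddMonoidHom

variable {deg}

theorem inc_apply {n : ℕ} (z : {x : X // deg x = n} →₀ ℤ) (x : {x : X // deg x = n}) :
    inc deg n z x.1 = z x :=
  Finsupp.mapDomain_apply Subtype.val_injective z x

theorem inc_not {n : ℕ} (z : {x : X // deg x = n} →₀ ℤ) {x : X} (h : deg x ≠ n) :
    inc deg n z x = 0 :=
  Finsupp.mapDomain_of_notMem_range z x (by
    rintro ⟨y, rfl⟩
    exact h y.2)

theorem res_apply {n : ℕ} (v : X →₀ ℤ) (x : {x : X // deg x = n}) : res deg n v x = v x.1 := rfl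

theorem inc_sp {n : ℕ} (z : {x : X // deg x = n} →₀ ℤ) : Sp deg n (inc deg n z) := by
  intro x hx
  by_contra h
  exact hx (inc_not z h)

theorem res_inc {n : ℕ} (z : {x : X // deg x = n} →₀ ℤ) : res deg n (inc deg n z) = z := by
  ext x
  rw [res_apply, inc_apply]

theorem inc_res {n : ℕ} {v : X →₀ ℤ} (h : Sp deg n v) : inc deg n (res deg n v) = v := by
  ext x
  by_cases hx : deg x = n
  · exact (inc_apply (res deg n v) ⟨x, hx⟩)
  · rw [inc_not _ hx]
    by_contra h1
    exact hx (h x (Ne.symm h1))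

/-- the sum of the coefficients -/
noncomputable def aug (z : X →₀ ℤ) : ℤ := z.sum fun _ n => n

theorem aug_add (z w : X →₀ ℤ) : aug (z + w) = aug z + aug w :=
  Finsupp.sum_add_index' (fun _ => rfl) (fun _ _ _ => rfl)

theorem aug_smul (n : ℤ) (z : X →₀ ℤ) : aug (n • z) = n * aug z := by
  unfold aug
  rw [Finsupp.sum_smul_index' (fun _ => rfl)]
  simp only [smul_eq_mul]
  unfold Finsupp.sum
  rw [Finset.mul_sum]

theorem aug_sum {ι : Type} (s : Finset ι) (f : ι → (X →₀ ℤ)) :
    aug (∑ i ∈ s, f i) = ∑ i ∈ s, aug (f i) := by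
  induction s using Finset.induction_on with
  | empty => rw [Finset.sum_empty, Finset.sum_empty]; rfl
  | insert a s ha ih => rw [Finset.sum_insert ha, Finset.sum_insert ha, aug_add, ih]

theorem aug_inc {n : ℕ} (z : {x : X // deg x = n} →₀ ℤ) :
    aug (inc deg n z) = z.sum (fun _ r => r) := by
  unfold aug inc
  exact Finsupp.sum_mapDomain_index (fun _ => rfl) (fun _ _ _ => rfl)

section main

variable {ρ : X → ℕ} {bd h : X → (X →₀ ℤ)} {x₀ : X}
  (hDD : ∀ x, lext bd (bd x) = 0)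
  (hb : ∀ x y, bd x y ≠ 0 → deg x = deg y + 1)
  (hc : ∀ x, deg x = 1 → (bd x).sum (fun _ n => n) = 0)
  (hh : ∀ x y, h x y ≠ 0 → deg y = deg x + 1)
  (he : ∀ x, x ≠ x₀ → ∀ y,
    (Finsupp.single x 1 - lext bd (h x) - lext h (bd x) : X →₀ ℤ) y ≠ 0 → ρ y < ρ x)
  (hx0 : deg x₀ = 0) (hh0 : h x₀ = 0)

include hDD in
theorem DD (z : X →₀ ℤ) : Lx bd (Lx bd z) = 0 := by
  rw [Lx_eq bd z]
  unfold lext Finsupp.sum
  rw [map_sum]
  refine Finset.sum_eq_zero fun x _ => ?_
  rw [map_smul, Lx_eq, hDD, smul_zero]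

include hb in
theorem D_sp {n : ℕ} {z : X →₀ ℤ} (hz : Sp deg (n + 1) z) : Sp deg n (Lx bd z) := by
  intro y hy
  obtain ⟨x, h1, h2⟩ := Lx_ne hy
  have h3 := hz x h1
  have h4 := hb x y h2
  omega

include hb in
theorem D_zero {z : X →₀ ℤ} (hz : Sp deg 0 z) : Lx bd z = 0 := by
  ext y
  by_contra hy
  obtain ⟨x, h1, h2⟩ := Lx_ne hy
  have h3 := hz x h1
  have h4 := hb x y h2
  omega

include hh in
theorem H_sp {n : ℕ} {z : X →₀ ℤ} (hz : Sp deg n z) : Sp deg (n + 1) (Lx h z) := by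
  intro y hy
  obtain ⟨x, h1, h2⟩ := Lx_ne hy
  have h3 := hz x h1
  have h4 := hh x y h2
  omega

theorem sp_sub {n : ℕ} {z w : X →₀ ℤ} (hz : Sp deg n z) (hw : Sp deg n w) : Sp deg n (z - w) := by
  intro x hx
  by_contra hd
  apply hx
  rw [Finsupp.sub_apply]
  have h1 : z x = 0 := by
    by_contra h2; exact hd (hz x h2)
  have h2 : w x = 0 := by
    by_contra h2; exact hd (hw x h2)
  rw [h1, h2, sub_zero]

theorem sp_add {n : ℕ} {z w : X →₀ ℤ} (hz : Sp deg n z) (hw : Sp deg n w) : Sp deg n (z + w) := by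
  intro x hx
  by_contra hd
  apply hx
  rw [Finsupp.add_apply]
  have h1 : z x = 0 := by
    by_contra h2; exact hd (hz x h2)
  have h2 : w x = 0 := by
    by_contra h2; exact hd (hw x h2)
  rw [h1, h2, add_zero]

theorem sp_zero {n : ℕ} : Sp deg n (0 : X →₀ ℤ) := fun _ hx => absurd rfl hx

/-- the error -/
noncomputable def NN (bd h : X → (X →₀ ℤ)) (z : X →₀ ℤ) : X →₀ ℤ :=
  z - Lx bd (Lx h z) - Lx h (Lx bd z)

theorem NN_eq (z : X →₀ ℤ) : NN bd h z =
    Lx (fun x => Finsupp.single x 1 - lext bd (h x) - lext h (bd x)) z := by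
  induction z using Finsupp.induction_linear with
  | zero => unfold NN; simp
  | add z w hz hw =>
    have e : NN bd h (z + w) = NN bd h z + NN bd h w := by
      unfold NN
      simp only [map_add]
      abel
    rw [e, hz, hw, map_add]
  | single x n =>
    have e1 : Finsupp.single x n = n • (Finsupp.single x 1 : X →₀ ℤ) := by
      rw [Finsupp.smul_single, smul_eq_mul, mul_one]
    have e2 : NN bd h (n • (Finsupp.single x 1 : X →₀ ℤ)) =
        n • NN bd h (Finsupp.single x 1) := by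
      unfold NN
      simp only [map_smul, smul_sub]
    rw [e1, e2, map_smul, Lx_single]
    congr 1
    unfold NN
    rw [Lx_single, Lx_single, Lx_eq, Lx_eq]

include hb hh0 hx0 in
theorem N_x0 : (Finsupp.single x₀ 1 - lext bd (h x₀) - lext h (bd x₀) : X →₀ ℤ) =
    Finsupp.single x₀ 1 := by
  have h1 : bd x₀ = 0 := by
    ext y
    by_contra hy
    have := hb x₀ y hy
    omega
  rw [hh0, h1]
  unfold lext
  rw [Finsupp.sum_zero_index, Finsupp.sum_zero_index, sub_zero, sub_zero]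

include hb hh0 hx0 he in
theorem N_supp {z : X →₀ ℤ} {y : X} (hy : NN bd h z y ≠ 0) (hy0 : y ≠ x₀) :
    ∃ x, z x ≠ 0 ∧ x ≠ x₀ ∧ ρ y < ρ x := by
  rw [NN_eq] at hy
  obtain ⟨x, h1, h2⟩ := Lx_ne hy
  by_cases hx : x = x₀
  · subst hx
    rw [N_x0 (deg := deg) hb hx0 hh0] at h2
    exfalso
    exact h2 (Finsupp.single_eq_of_ne hy0)
  · exact ⟨x, h1, hx, he x hx y h2⟩

include hDD hb hh he hx0 hh0 in
theorem ex_succ (n : ℕ) (r : ℕ) : ∀ z : X →₀ ℤ, Sp deg (n + 1) z → Lx bd z = 0 →
    (∀ x, z x ≠ 0 → ρ x < r) → ∃ y, Sp deg (n + 2) y ∧ Lx bd y = z := by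
  induction r with
  | zero =>
    intro z _ _ h0
    refine ⟨0, sp_zero, ?_⟩
    rw [map_zero]
    ext x
    by_contra hx
    exact absurd (h0 x (Ne.symm hx)) (Nat.not_lt_zero _)
  | succ r ih =>
    intro z hz hD h0
    have e : NN bd h z = z - Lx bd (Lx h z) := by
      unfold NN
      rw [hD, map_zero, sub_zero]
    have h1 : Sp deg (n + 1) (NN bd h z) := by
      rw [e]
      exact sp_sub hz (D_sp hb (H_sp hh hz))
    have h2 : Lx bd (NN bd h z) = 0 := by
      rw [e, map_sub, hD, DD hDD, sub_zero]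
    have h3 : ∀ x, NN bd h z x ≠ 0 → ρ x < r := by
      intro y hy
      have hy0 : y ≠ x₀ := by
        rintro rfl
        have := h1 _ hy
        omega
      obtain ⟨x, h4, _, h5⟩ := N_supp hb he hx0 hh0 hy hy0
      have := h0 x h4
      omega
    obtain ⟨y, hy1, hy2⟩ := ih _ h1 h2 h3
    refine ⟨Lx h z + y, sp_add (H_sp hh hz) hy1, ?_⟩
    rw [map_add, hy2, e]
    abel

include hc in
theorem aug_D {z : X →₀ ℤ} (hz : Sp deg 1 z) : aug (Lx bd z) = 0 := by
  rw [Lx_eq]
  unfold lext Finsupp.sum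
  rw [aug_sum]
  refine Finset.sum_eq_zero fun x hx => ?_
  rw [aug_smul]
  have : aug (bd x) = 0 := hc x (hz x (Finsupp.mem_support_iff.1 hx))
  rw [this, mul_zero]

include hb hc hh he hx0 hh0 in
theorem ex_zero (r : ℕ) : ∀ z : X →₀ ℤ, Sp deg 0 z → aug z = 0 →
    (∀ x, z x ≠ 0 → x ≠ x₀ → ρ x < r) → ∃ y, Sp deg 1 y ∧ Lx bd y = z := by
  induction r with
  | zero =>
    intro z _ ha h0
    refine ⟨0, sp_zero, ?_⟩
    have h1 : ∀ x, x ≠ x₀ → z x = 0 := by
      intro x hx
      by_contra h2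
      exact absurd (h0 x h2 hx) (Nat.not_lt_zero _)
    have h2 : z = Finsupp.single x₀ (z x₀) := by
      ext x
      by_cases hx : x = x₀
      · rw [hx, Finsupp.single_eq_same]
      · rw [h1 x hx, Finsupp.single_eq_of_ne hx]
    have h3 : z x₀ = 0 := by
      rw [h2] at ha
      unfold aug at ha
      rwa [Finsupp.sum_single_index rfl] at ha
    rw [map_zero, h2, h3, Finsupp.single_zero]
  | succ r ih =>
    intro z hz ha h0
    have hD : Lx bd z = 0 := D_zero hb hz
    have e : NN bd h z = z - Lx bd (Lx h z) := by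
      unfold NN
      rw [hD, map_zero, sub_zero]
    have hHs : Sp deg 1 (Lx h z) := H_sp hh hz
    have h1 : Sp deg 0 (NN bd h z) := by
      rw [e]
      exact sp_sub hz (D_sp hb hHs)
    have h2 : aug (NN bd h z) = 0 := by
      have h3 : NN bd h z + Lx bd (Lx h z) = z := by rw [e]; abel
      have h4 := aug_add (NN bd h z) (Lx bd (Lx h z))
      rw [h3, ha, aug_D hc hHs, add_zero] at h4
      exact h4.symm
    have h3 : ∀ x, NN bd h z x ≠ 0 → x ≠ x₀ → ρ x < r := by
      intro y hy hy0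
      obtain ⟨x, h4, h5, h6⟩ := N_supp hb he hx0 hh0 hy hy0
      have := h0 x h4 h5
      omega
    obtain ⟨y, hy1, hy2⟩ := ih _ h1 h2 h3
    refine ⟨Lx h z + y, sp_add hHs hy1, ?_⟩
    rw [map_add, hy2, e]
    abel

end main

end

/-- Job GR. -/
theorem gr : S_GR := by
  intro N _ X _ deg ρ bd h x₀ L hdeg hL hbd hDD hb hc hh he hx0 hh0
  have hbound : ∀ z : X →₀ ℤ, ∃ r, ∀ x, z x ≠ 0 → ρ x < r := by
    intro z
    refine ⟨(z.support.sup ρ) + 1, fun x hx => Nat.lt_succ_of_le ?_⟩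
    exact Finset.le_sup (Finsupp.mem_support_iff.2 hx)
  have hequiv : ∀ (n : N) (z : X →₀ ℤ),
      Lx bd (z.mapDomain (fun y => n • y)) = (Lx bd z).mapDomain (fun y => n • y) := by
    intro n z
    induction z using Finsupp.induction_linear with
    | zero => simp
    | add z w hz hw => rw [Finsupp.mapDomain_add, map_add, hz, hw, map_add, Finsupp.mapDomain_add]
    | single x k =>
      rw [Finsupp.mapDomain_single]
      have e1 : ∀ y : X, Finsupp.single y k = k • (Finsupp.single y 1 : X →₀ ℤ) := by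
        intro y
        rw [Finsupp.smul_single, smul_eq_mul, mul_one]
      rw [e1, e1, map_smul, map_smul, Lx_single, Lx_single, hbd, Finsupp.mapDomain_smul]
  let act : ∀ i, MulAction N {x : X // deg x = i} := fun i =>
    { smul := fun n x => ⟨n • x.1, by rw [hdeg]; exact x.2⟩
      one_smul := fun x => Subtype.ext (one_smul N x.1)
      mul_smul := fun a b x => Subtype.ext (mul_smul a b x.1) }
  let bdn : ∀ i, ({x : X // deg x = i + 1} →₀ ℤ) →+ ({x : X // deg x = i} →₀ ℤ) := fun i =>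
    (res deg i).comp ((Lx bd).toAddMonoidHom.comp (inc deg (i + 1)))
  have hbdn : ∀ i z, bdn i z = res deg i (Lx bd (inc deg (i + 1) z)) := fun i z => rfl
  have hinc : ∀ i z, inc deg i (bdn i z) = Lx bd (inc deg (i + 1) z) := by
    intro i z
    rw [hbdn]
    exact inc_res (D_sp hb (inc_sp z))
  refine ⟨{
    E := fun n => {x : X // deg x = n}
    act := act
    bd := bdn
    bd_smul := ?_
    len := L
    isEmpty := ?_
    nonempty := ⟨⟨x₀, hx0⟩⟩
    exact_zero := ?_
    exact_succ := ?_ }, fun n => Equiv.refl _, ?_, ?_⟩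
  · intro i g x
    have e1 : inc deg (i + 1) (x.mapDomain (fun e => g • e)) =
        (inc deg (i + 1) x).mapDomain (fun y => g • y) := by
      unfold inc
      show Finsupp.mapDomain Subtype.val (x.mapDomain (fun e => g • e)) =
        Finsupp.mapDomain (fun y => g • y) (Finsupp.mapDomain Subtype.val x)
      rw [← Finsupp.mapDomain_comp, ← Finsupp.mapDomain_comp]
      rfl
    rw [hbdn, e1, hequiv, hbdn]
    ext y
    have e2 : y = g • (g⁻¹ • y) := (smul_inv_smul g y).symm
    rw [res_apply]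
    have e3 : (y : X) = g • ((g⁻¹ • y : {x : X // deg x = i}) : X) := by
      conv_lhs => rw [e2]
      rfl
    rw [e3, Finsupp.mapDomain_apply (MulAction.injective g)]
    conv_rhs => rw [e2]
    rw [Finsupp.mapDomain_apply (MulAction.injective g), res_apply]
  · intro i hi
    refine ⟨fun x => ?_⟩
    have := hL x.1
    have h2 := x.2
    omega
  · intro x
    constructor
    · intro hx
      rw [← aug_inc] at hx
      obtain ⟨r, hr⟩ := hbound (inc deg 0 x)
      obtain ⟨y, hy1, hy2⟩ := ex_zero hb hc hh he hx0 hh0 r (inc deg 0 x) (inc_sp x) hx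
        (fun z hz _ => hr z hz)
      refine ⟨res deg 1 y, ?_⟩
      show bdn 0 (res deg 1 y) = x
      rw [hbdn, inc_res hy1, hy2, res_inc]
    · rintro ⟨y, rfl⟩
      rw [← aug_inc]
      show aug (inc deg 0 (bdn 0 y)) = 0
      rw [hinc]
      exact aug_D hc (inc_sp y)
  · intro i x
    constructor
    · intro hx
      have hx' : Lx bd (inc deg (i + 1) x) = 0 := by
        rw [← hinc]
        show inc deg i (bdn i x) = 0
        rw [show bdn i x = 0 from hx, map_zero]
      obtain ⟨r, hr⟩ := hbound (inc deg (i + 1) x)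
      obtain ⟨y, hy1, hy2⟩ := ex_succ hDD hb hh he hx0 hh0 i r (inc deg (i + 1) x) (inc_sp x) hx' hr
      refine ⟨res deg (i + 2) y, ?_⟩
      show bdn (i + 1) (res deg (i + 2) y) = x
      rw [hbdn, inc_res hy1, hy2, res_inc]
    · rintro ⟨y, rfl⟩
      show bdn i (bdn (i + 1) y) = 0
      rw [hbdn, hinc, DD hDD, map_zero]
  · intro n g x
    rfl
  · intro n x y
    show bdn n (Finsupp.single x 1) y = bd x.1 y.1
    have e : inc deg (n + 1) (Finsupp.single x 1) = Finsupp.single x.1 1 :=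
      Finsupp.mapDomain_single
    rw [hbdn, e, Lx_single, res_apply]

end Pool.Agent.Q68.ZD
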