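import Pool.Agent.Q169.ZD.Stm3

/-!
Jobs KDEG and KSQ (project ZD of helper169): the cube complex `K`.
-/

set_option autoImplicit false

namespace Pool.Agent.Q68.ZD

open Pool.Agent.Q169.ZD Q27.Cox

open scoped Classical

section

variable {B : Type} {M : CoxeterMatrix B} {W : Type} [Group W] {cs : CoxeterSystem M W}

theorem fin_mono {S T : Set B} (h : S ⊆ T) (hT : Finite (par cs T)) : Finite (par cs S) := by
  have : Finite (P cs T) := hT
  exact Finite.of_injective (Subgroup.inclusion (P_mono (cs := cs) h))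
    (Subgroup.inclusion_injective _)

variable [LinearOrder B]

/-- the cell `(lo ∪ {s}, hi)` -/
noncomputable def upc (p : Itv cs) (s : B) : Itv cs :=
  if h : s ∈ p.hi then ⟨insert s p.lo, p.hi, Finset.insert_subset h p.le, p.sph⟩ else p

/-- the cell `(lo, hi ∖ {s})` -/
noncomputable def dnc (p : Itv cs) (s : B) : Itv cs :=
  if h : s ∉ p.lo then ⟨p.lo, p.hi.erase s,
    fun _ hx => Finset.mem_erase.2 ⟨fun e => h (e ▸ hx), p.le hx⟩,
    fin_mono (Finset.coe_subset.2 (Finset.erase_subset s p.hi)) p.sph⟩ else p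

theorem upc_lo {p : Itv cs} {s : B} (h : s ∈ p.hi) : (upc p s).lo = insert s p.lo := by
  unfold upc; rw [dif_pos h]

theorem upc_hi (p : Itv cs) (s : B) : (upc p s).hi = p.hi := by
  unfold upc; split_ifs <;> rfl

theorem dnc_lo (p : Itv cs) (s : B) : (dnc p s).lo = p.lo := by
  unfold dnc; split_ifs <;> rfl

theorem dnc_hi {p : Itv cs} {s : B} (h : s ∉ p.lo) : (dnc p s).hi = p.hi.erase s := by
  unfold dnc; rw [dif_pos h]

theorem eq_upc {p p' : Itv cs} {s : B} (h : s ∈ p.hi) :
    (p'.lo = insert s p.lo ∧ p'.hi = p.hi) ↔ p' = upc p s := by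
  rw [Itv.ext_iff, upc_lo h, upc_hi]

theorem eq_dnc {p p' : Itv cs} {s : B} (h : s ∉ p.lo) :
    (p'.lo = p.lo ∧ p'.hi = p.hi.erase s) ↔ p' = dnc p s := by
  rw [Itv.ext_iff, dnc_lo, dnc_hi h]

theorem kinc_eq (p p' : Itv cs) : kinc p p' = ∑ s ∈ p.hi \ p.lo, sgn (p.hi \ p.lo) s *
    ((if p' = upc p s then 1 else 0) - (if p' = dnc p s then 1 else 0)) := by
  unfold kinc
  refine Finset.sum_congr rfl fun s hs => ?_
  rw [Finset.mem_sdiff] at hs
  simp only [eq_upc hs.1, eq_dnc hs.2]

theorem sum_kinc [Finite B] (p : Itv cs) (F : Itv cs → ℤ) : ∑ p', kinc p p' * F p' =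
    ∑ s ∈ p.hi \ p.lo, sgn (p.hi \ p.lo) s * (F (upc p s) - F (dnc p s)) := by
  simp only [kinc_eq, Finset.sum_mul]
  rw [Finset.sum_comm]
  refine Finset.sum_congr rfl fun s _ => ?_
  simp only [mul_assoc, ← Finset.mul_sum, sub_mul, ite_mul, one_mul, zero_mul,
    Finset.sum_sub_distrib]
  rw [Finset.sum_ite_eq' Finset.univ (upc p s) F, Finset.sum_ite_eq' Finset.univ (dnc p s) F,
    if_pos (Finset.mem_univ _), if_pos (Finset.mem_univ _)]

theorem deg_upc {p : Itv cs} {s : B} (h : s ∈ p.hi \ p.lo) :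
    (upc p s).hi \ (upc p s).lo = (p.hi \ p.lo).erase s := by
  rw [Finset.mem_sdiff] at h
  rw [upc_hi, upc_lo h.1]
  ext x
  simp only [Finset.mem_sdiff, Finset.mem_insert, Finset.mem_erase]
  tauto

theorem deg_dnc {p : Itv cs} {s : B} (h : s ∈ p.hi \ p.lo) :
    (dnc p s).hi \ (dnc p s).lo = (p.hi \ p.lo).erase s := by
  rw [Finset.mem_sdiff] at h
  rw [dnc_lo, dnc_hi h.2]
  ext x
  simp only [Finset.mem_sdiff, Finset.mem_erase]
  tauto

/-- Job KDEG. -/
theorem kdeg : S_KDEG := by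
  intro B _ _ M W _ cs
  constructor
  · intro p p' h
    rw [kinc_eq] at h
    obtain ⟨s, hs, h1⟩ := Finset.exists_ne_zero_of_sum_ne_zero h
    have hs' := Finset.mem_sdiff.1 hs
    have h2 : p' = upc p s ∨ p' = dnc p s := by
      by_contra hc
      push Not at hc
      rw [if_neg hc.1, if_neg hc.2] at h1
      simp at h1
    have hcard : ((p.hi \ p.lo).erase s).card + 1 = (p.hi \ p.lo).card :=
      Finset.card_erase_add_one hs
    rcases h2 with rfl | rfl
    · refine ⟨?_, ?_, ?_⟩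
      · unfold Itv.deg
        rw [deg_upc hs, hcard]
      · rw [upc_lo hs'.1]
        exact Finset.subset_insert _ _
      · rw [upc_hi]
    · refine ⟨?_, ?_, ?_⟩
      · unfold Itv.deg
        rw [deg_dnc hs, hcard]
      · rw [dnc_lo]
      · rw [dnc_hi hs'.2]
        exact Finset.erase_subset _ _
  · intro p _
    have h := sum_kinc p (fun _ => 1)
    simp only [mul_one, sub_self, mul_zero, Finset.sum_const_zero] at h
    exact h

/-! ### signs -/

theorem sgn_sq (A : Finset B) (s : B) : sgn A s * sgn A s = 1 := by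
  unfold sgn
  rw [← pow_add, ← two_mul, pow_mul]
  norm_num

theorem sgn_erase_lt {A : Finset B} {s t : B} (hs : s ∈ A) (h : s < t) :
    sgn (A.erase s) t = - sgn A t := by
  unfold sgn
  have e : (A.erase s).filter (· < t) = (A.filter (· < t)).erase s := by
    ext x
    simp only [Finset.mem_filter, Finset.mem_erase]
    tauto
  have hm : s ∈ A.filter (· < t) := Finset.mem_filter.2 ⟨hs, h⟩
  rw [e, ← Finset.card_erase_add_one hm, pow_succ]
  ring

theorem sgn_erase_ge {A : Finset B} {s t : B} (h : ¬ s < t) : sgn (A.erase s) t = sgn A t := by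
  unfold sgn
  congr 2
  ext x
  simp only [Finset.mem_filter, Finset.mem_erase]
  constructor
  · rintro ⟨⟨_, h2⟩, h3⟩
    exact ⟨h2, h3⟩
  · rintro ⟨h2, h3⟩
    exact ⟨⟨fun e => h (e ▸ h3), h2⟩, h3⟩

theorem sgn_swap {A : Finset B} {s t : B} (hs : s ∈ A) (ht : t ∈ A) (h : s ≠ t) :
    sgn A s * sgn (A.erase s) t = - (sgn A t * sgn (A.erase t) s) := by
  rcases lt_or_gt_of_ne h with h1 | h1
  · rw [sgn_erase_lt hs h1, sgn_erase_ge (not_lt.2 h1.le)]
    ring
  · rw [sgn_erase_lt ht h1, sgn_erase_ge (not_lt.2 h1.le)]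
    ring

/-- the cells which occur in `∂ ∂ p` -/
noncomputable def ff (lo hi : Finset B) (p'' : Itv cs) (s t : B) : ℤ :=
  (if p''.lo = insert s (insert t lo) ∧ p''.hi = hi then 1 else 0) -
    (if p''.lo = insert s lo ∧ p''.hi = hi.erase t then 1 else 0) -
    (if p''.lo = insert t lo ∧ p''.hi = hi.erase s then 1 else 0) +
    (if p''.lo = lo ∧ p''.hi = (hi.erase s).erase t then 1 else 0)

theorem ff_symm (lo hi : Finset B) (p'' : Itv cs) (s t : B) :
    ff lo hi p'' s t = ff lo hi p'' t s := by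
  unfold ff
  rw [Finset.insert_comm s t lo, Finset.erase_right_comm (a := s) (b := t)]
  ring

/-- Job KSQ. -/
theorem ksq : S_KSQ := by
  intro B _ _ M W _ cs p p''
  rw [sum_kinc p (fun p' => kinc p' p'')]
  set A := p.hi \ p.lo with hA
  have key : ∀ s ∈ A, sgn A s * (kinc (upc p s) p'' - kinc (dnc p s) p'') =
      ∑ t ∈ A, if s ≠ t then sgn A s * sgn (A.erase s) t * ff p.lo p.hi p'' s t else 0 := by
    intro s hs
    have hs' := Finset.mem_sdiff.1 hs
    rw [← Finset.sum_filter, show A.filter (fun t => s ≠ t) = A.erase s by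
      ext x
      simp only [Finset.mem_filter, Finset.mem_erase]
      tauto]
    unfold kinc
    rw [deg_upc hs, deg_dnc hs, ← hA, ← Finset.sum_sub_distrib, Finset.mul_sum]
    refine Finset.sum_congr rfl fun t ht => ?_
    rw [upc_lo hs'.1, upc_hi, dnc_lo, dnc_hi hs'.2]
    unfold ff
    rw [Finset.insert_comm s t p.lo]
    ring
  rw [Finset.sum_congr rfl key]
  have hneg : ∑ s ∈ A, ∑ t ∈ A,
      (if s ≠ t then sgn A s * sgn (A.erase s) t * ff p.lo p.hi p'' s t else 0) =
      - ∑ s ∈ A, ∑ t ∈ A,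
      (if s ≠ t then sgn A s * sgn (A.erase s) t * ff p.lo p.hi p'' s t else 0) := by
    conv_lhs => rw [Finset.sum_comm]
    rw [← Finset.sum_neg_distrib]
    refine Finset.sum_congr rfl fun t ht => ?_
    rw [← Finset.sum_neg_distrib]
    refine Finset.sum_congr rfl fun s hs => ?_
    by_cases h : s = t
    · rw [if_neg (not_not.2 h), if_neg (not_not.2 h.symm), neg_zero]
    · rw [if_pos h, if_pos (Ne.symm h), sgn_swap hs ht h, ff_symm]
      ring
  omega

end

end Pool.Agent.Q68.ZD
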