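import Pool.Agent.Q68.ZD.Lim

/-!
Job KH (project ZD of helper169): a homotopy for the complex of the Davis chamber relative to the
mirrors with index in `I`.
-/

set_option autoImplicit false

namespace Pool.Agent.Q68.ZD

open Pool.Agent.Q169.ZD Q27.Cox

open scoped Classical

section

variable {B : Type} {M : CoxeterMatrix B} {W : Type} [Group W] {cs : CoxeterSystem M W}
variable [LinearOrder B]

theorem sgn_ins_self {A : Finset B} {m : B} (hm : m ∉ A) : sgn (insert m A) m = sgn A m := by
  have h := sgn_erase_ge (A := insert m A) (lt_irrefl m)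
  rw [Finset.erase_insert hm] at h
  exact h.symm

theorem sgn_ins {A : Finset B} {m s : B} (hm : m ∉ A) (hs : s ∈ A) :
    sgn A m * sgn (insert m A) s = -(sgn A s * sgn (A.erase s) m) := by
  have hne : s ≠ m := fun e => hm (e ▸ hs)
  rcases lt_or_gt_of_ne hne with h | h
  · have h1 := sgn_erase_ge (A := insert m A) (not_lt.2 h.le)
    rw [Finset.erase_insert hm] at h1
    rw [sgn_erase_lt hs h, ← h1]
    ring
  · have h1 := sgn_erase_lt (A := insert m A) (Finset.mem_insert_self m A) h
    rw [Finset.erase_insert hm] at h1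
    rw [sgn_erase_ge (not_lt.2 h.le), h1]
    ring

variable {I : Finset B} (hI : Finite (par cs (I : Set B)))

/-- the cell `(lo, hi ∪ {i})`, for `hi ∪ {i} ⊆ I` -/
noncomputable def insc (p : Itv cs) (i : B) : Itv cs :=
  if h : insert i p.hi ⊆ I then ⟨p.lo, insert i p.hi, p.le.trans (Finset.subset_insert _ _),
    fin_mono (Finset.coe_subset.2 h) hI⟩ else p

theorem insc_lo (p : Itv cs) (i : B) : (insc hI p i).lo = p.lo := by
  unfold insc; split_ifs <;> rfl

theorem insc_hi {p : Itv cs} {i : B} (h : p.hi ⊆ I) (hi : i ∈ I) :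
    (insc hI p i).hi = insert i p.hi := by
  unfold insc; rw [dif_pos (Finset.insert_subset hi h)]

/-- first case -/
noncomputable def h1 (p p' : Itv cs) (m : B) : ℤ :=
  if m ∈ p.lo then sgn (p.hi \ p.lo) m * (if p' = era p m then 1 else 0) else 0

/-- second case -/
noncomputable def h2 (p p' : Itv cs) (i : B) : ℤ :=
  if i ∈ p.hi then 0 else - sgn (p.hi \ p.lo) i * (if p' = insc hI p i then 1 else 0)

/-- the homotopy -/
noncomputable def hh (p p' : Itv cs) : ℤ :=
  if Disjoint p.lo I then
    (if h : (p.hi \ I).Nonempty then h1 p p' ((p.hi \ I).min' h)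
      else if h' : I.Nonempty then h2 hI p p' (I.min' h') else 0)
  else 0

theorem hh_dis {p : Itv cs} (p' : Itv cs) (h : ¬ Disjoint p.lo I) : hh hI p p' = 0 := by
  unfold hh; rw [if_neg h]

theorem hh_one {p : Itv cs} (p' : Itv cs) (h : Disjoint p.lo I) {m : B} (hm : m ∈ p.hi \ I)
    (hmin : ∀ x ∈ p.hi \ I, m ≤ x) : hh hI p p' = h1 p p' m := by
  unfold hh
  rw [if_pos h, dif_pos ⟨m, hm⟩]
  congr 1
  exact le_antisymm (Finset.min'_le _ _ hm) (Finset.le_min' _ _ _ hmin)

theorem hh_two {p : Itv cs} (p' : Itv cs) (h : Disjoint p.lo I) (hp : p.hi ⊆ I) {i : B}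
    (hi : i ∈ I) (hmin : ∀ x ∈ I, i ≤ x) : hh hI p p' = h2 hI p p' i := by
  unfold hh
  rw [if_pos h, dif_neg (by rw [Finset.sdiff_eq_empty_iff_subset.2 hp]; exact Finset.not_nonempty_empty),
    dif_pos ⟨i, hi⟩]
  congr 1
  exact le_antisymm (Finset.min'_le _ _ hi) (Finset.le_min' _ _ _ hmin)

theorem dis_era {p : Itv cs} (h : Disjoint p.lo I) (m : B) : Disjoint (era p m).lo I := by
  rw [era_lo]
  exact Finset.disjoint_of_subset_left (Finset.erase_subset _ _) h

theorem krank_congr {p p' : Itv cs} (h : p'.hi = p.hi) : krank I p' = krank I p := by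
  unfold krank; rw [h]

theorem ex_min {F : Finset B} (h : F.Nonempty) : ∃ m ∈ F, ∀ x ∈ F, m ≤ x :=
  ⟨F.min' h, F.min'_mem h, fun x hx => F.min'_le x hx⟩

theorem insc_sdiff {p : Itv cs} (h : Disjoint p.lo I) {i : B} (hp : p.hi ⊆ I) (hi : i ∈ I) :
    (insc hI p i).hi \ (insc hI p i).lo = insert i (p.hi \ p.lo) := by
  rw [insc_hi hI hp hi, insc_lo]
  ext x
  simp only [Finset.mem_sdiff, Finset.mem_insert]
  constructor
  · rintro ⟨rfl | h1, h2⟩
    · exact Or.inl rfl
    · exact Or.inr ⟨h1, h2⟩
  · rintro (rfl | ⟨h1, h2⟩)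
    · exact ⟨Or.inl rfl, fun h3 => Finset.disjoint_left.1 h h3 hi⟩
    · exact ⟨Or.inr h1, h2⟩

theorem hh_ne {p p' : Itv cs} (h : hh hI p p' ≠ 0) : Disjoint p.lo I ∧ Disjoint p'.lo I ∧
    p'.deg = p.deg + 1 ∧ krank I p' = krank I p := by
  by_cases hd : Disjoint p.lo I
  swap
  · exact absurd (hh_dis hI p' hd) h
  refine ⟨hd, ?_⟩
  by_cases h3 : (p.hi \ I).Nonempty
  · obtain ⟨m, hm, hmin⟩ := ex_min h3
    rw [hh_one hI p' hd hm hmin] at h
    unfold h1 at h
    by_cases hl : m ∈ p.lo
    · rw [if_pos hl] at h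
      by_cases he : p' = era p m
      · rw [he]
        exact ⟨dis_era hd m, era_deg hl, krank_congr (era_hi p m)⟩
      · rw [if_neg he, mul_zero] at h
        exact absurd rfl h
    · rw [if_neg hl] at h
      exact absurd rfl h
  · have hp : p.hi ⊆ I := by
      rw [Finset.not_nonempty_iff_eq_empty, Finset.sdiff_eq_empty_iff_subset] at h3
      exact h3
    by_cases h4 : I.Nonempty
    · obtain ⟨i, hi, hmin⟩ := ex_min h4
      rw [hh_two hI p' hd hp hi hmin] at h
      unfold h2 at h
      by_cases hl : i ∈ p.hi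
      · rw [if_pos hl] at h
        exact absurd rfl h
      · rw [if_neg hl] at h
        by_cases he : p' = insc hI p i
        · rw [he]
          refine ⟨?_, ?_, ?_⟩
          · rw [insc_lo]; exact hd
          · unfold Itv.deg
            rw [insc_sdiff hI hd hp hi, Finset.card_insert_of_notMem]
            rw [Finset.mem_sdiff]
            exact fun h' => hl h'.1
          · unfold krank
            rw [if_pos hp, insc_hi hI hp hi, if_pos (Finset.insert_subset hi hp)]
        · rw [if_neg he, mul_zero] at h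
          exact absurd rfl h
    · exfalso
      apply h
      unfold hh
      rw [if_pos hd, dif_neg h3, dif_neg h4]

theorem krank_le (p : Itv cs) : krank I p ≤ p.hi.card := by
  unfold krank; split_ifs
  · exact Nat.zero_le _
  · exact le_rfl

theorem sum_filter_hh [Finite B] (p p'' : Itv cs) :
    ∑ p' ∈ Finset.univ.filter (fun p' : Itv cs => Disjoint p'.lo I), kinc p p' * hh hI p' p'' =
      ∑ s ∈ p.hi \ p.lo, sgn (p.hi \ p.lo) s * (hh hI (upc p s) p'' - hh hI (dnc p s) p'') := by
  rw [← sum_kinc p (fun p' => hh hI p' p'')]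
  rw [Finset.sum_filter]
  refine Finset.sum_congr rfl fun p' _ => ?_
  split_ifs with h
  · rfl
  · rw [hh_dis hI p'' h, mul_zero]

theorem upc_dis {p : Itv cs} {s : B} (hs : s ∈ p.hi) (hsI : s ∈ I) :
    ¬ Disjoint (upc p s).lo I := by
  rw [upc_lo hs]
  intro h
  exact Finset.disjoint_left.1 h (Finset.mem_insert_self _ _) hsI

theorem main1 [Finite B] {p p'' : Itv cs} (hd : Disjoint p.lo I) (hd'' : Disjoint p''.lo I)
    (hp : (p.hi \ I).Nonempty) (hk : ¬ krank I p'' < krank I p) :
    (if p = p'' then (1 : ℤ) else 0) - ∑ p', hh hI p p' * kinc p' p'' -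
      ∑ s ∈ p.hi \ p.lo, sgn (p.hi \ p.lo) s * (hh hI (upc p s) p'' - hh hI (dnc p s) p'') = 0 := by
  obtain ⟨m, hm, hmin⟩ := ex_min hp
  have hm' := Finset.mem_sdiff.1 hm
  have hkp : krank I p = p.hi.card := by
    unfold krank
    rw [if_neg]
    intro h
    exact hm'.2 (h hm'.1)
  rw [hkp] at hk
  set A := p.hi \ p.lo with hA
  have hdn : ∀ s ∈ A, hh hI (dnc p s) p'' = 0 := by
    intro s hs
    have hs' := Finset.mem_sdiff.1 hs
    by_contra hne
    have h3 := (hh_ne hI hne).2.2.2
    apply hk
    rw [h3]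
    refine (krank_le _).trans_lt ?_
    rw [dnc_hi hs'.2]
    exact Finset.card_erase_lt_of_mem hs'.1
  have hsmall : ∀ (q : Itv cs) (s : B), s ∈ p.hi → q.hi = p.hi.erase s → ¬ p'' = q := by
    intro q s hs hq he
    apply hk
    refine (krank_le _).trans_lt ?_
    rw [he, hq]
    exact Finset.card_erase_lt_of_mem hs
  have hup : ∀ s ∈ A, hh hI (upc p s) p'' = if s ∈ I then 0 else
      (if m ∈ insert s p.lo then sgn (A.erase s) m * (if p'' = era (upc p s) m then 1 else 0)
        else 0) := by
    intro s hs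
    have hs' := Finset.mem_sdiff.1 hs
    by_cases hsI : s ∈ I
    · rw [if_pos hsI, hh_dis hI p'' (upc_dis hs'.1 hsI)]
    · rw [if_neg hsI, hh_one hI p'' (m := m)]
      · unfold h1
        rw [deg_upc hs, upc_lo hs'.1]
      · rw [upc_lo hs'.1, Finset.disjoint_insert_left]
        exact ⟨hsI, hd⟩
      · rw [upc_hi]; exact hm
      · rw [upc_hi]; exact hmin
  by_cases hl : m ∈ p.lo
  · -- `m ∈ lo`
    have hmA : m ∉ A := fun h => (Finset.mem_sdiff.1 h).2 hl
    have hT1 : ∑ p', hh hI p p' * kinc p' p'' = sgn A m * kinc (era p m) p'' := by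
      rw [Finset.sum_eq_single (era p m)]
      · rw [hh_one hI _ hd hm hmin]
        unfold h1
        rw [if_pos hl, if_pos rfl, mul_one]
      · intro q _ hq
        rw [hh_one hI _ hd hm hmin]
        unfold h1
        rw [if_pos hl, if_neg hq, mul_zero, zero_mul]
      · intro h; exact absurd (Finset.mem_univ _) h
    have hK : kinc (era p m) p'' = sgn A m * (if p = p'' then 1 else 0) +
        ∑ s ∈ A, sgn (insert m A) s * (if p'' = upc (era p m) s then 1 else 0) := by
      have hz : ∀ s, s ∉ (era p m).lo → s ∈ p.hi → ¬ p'' = dnc (era p m) s := by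
        intro s h1 h2
        exact hsmall _ s h2 (by rw [dnc_hi h1, era_hi])
      rw [kinc_eq, era_sdiff hl, Finset.sum_insert hmA, sgn_ins_self hmA, upc_era hl,
        if_neg (hz m (by rw [era_lo]; exact Finset.notMem_erase m _) hm'.1), sub_zero]
      congr 1
      · by_cases h : p = p''
        · rw [if_pos h, if_pos h.symm]
        · rw [if_neg h, if_neg (Ne.symm h)]
      · refine Finset.sum_congr rfl fun s hs => ?_
        have hs' := Finset.mem_sdiff.1 hs
        rw [if_neg (hz s (by
          rw [era_lo]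
          exact fun h => hs'.2 (Finset.mem_of_mem_erase h)) hs'.1), sub_zero]
    rw [hT1, hK, mul_add, ← mul_assoc, sgn_sq, one_mul, Finset.mul_sum, sub_add_cancel_left,
      ← Finset.sum_neg_distrib, ← Finset.sum_sub_distrib]
    refine Finset.sum_eq_zero fun s hs => ?_
    have hs' := Finset.mem_sdiff.1 hs
    have hne : s ≠ m := fun e => hs'.2 (e ▸ hl)
    rw [hdn s hs, hup s hs, sub_zero]
    by_cases hsI : s ∈ I
    · rw [if_pos hsI, if_neg, mul_zero, mul_zero, mul_zero, sub_zero, neg_zero]
      intro he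
      rw [he] at hd''
      rw [upc_lo (by rw [era_hi]; exact hs'.1)] at hd''
      exact Finset.disjoint_left.1 hd'' (Finset.mem_insert_self _ _) hsI
    · rw [if_neg hsI, if_pos (Finset.mem_insert_of_mem hl)]
      have e : era (upc p s) m = upc (era p m) s := by
        apply Itv.ext
        · rw [era_lo, upc_lo hs'.1, upc_lo (by rw [era_hi]; exact hs'.1), era_lo,
            Finset.erase_insert_of_ne hne]
        · rw [era_hi, upc_hi, upc_hi, era_hi]
      rw [e, ← mul_assoc, sgn_ins hmA hs]
      ring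
  · -- `m ∉ lo`
    have hmA : m ∈ A := Finset.mem_sdiff.2 ⟨hm'.1, hl⟩
    have hT1 : ∑ p', hh hI p p' * kinc p' p'' = 0 := by
      refine Finset.sum_eq_zero fun q _ => ?_
      rw [hh_one hI _ hd hm hmin]
      unfold h1
      rw [if_neg hl, zero_mul]
    rw [hT1, sub_zero, Finset.sum_eq_single m]
    · rw [hdn m hmA, hup m hmA, if_neg hm'.2, if_pos (Finset.mem_insert_self _ _),
        era_upc hm'.1 hl, sgn_erase_ge (lt_irrefl m), sub_zero, ← mul_assoc, sgn_sq, one_mul]
      by_cases h : p = p''
      · rw [if_pos h, if_pos h.symm, sub_self]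
      · rw [if_neg h, if_neg (Ne.symm h), sub_self]
    · intro s hs hne
      rw [hdn s hs, hup s hs]
      have : m ∉ insert s p.lo := by
        rw [Finset.mem_insert]
        rintro (h | h)
        · exact hne h.symm
        · exact hl h
      rw [if_neg this, ite_self, sub_zero, mul_zero]
    · intro h; exact absurd hmA h

theorem main2 [Finite B] {p p'' : Itv cs} (hd : Disjoint p.lo I) (hd'' : Disjoint p''.lo I)
    (hp : p.hi ⊆ I) (hne0 : I.Nonempty) :
    (if p = p'' then (1 : ℤ) else 0) - ∑ p', hh hI p p' * kinc p' p'' -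
      ∑ s ∈ p.hi \ p.lo, sgn (p.hi \ p.lo) s * (hh hI (upc p s) p'' - hh hI (dnc p s) p'') = 0 := by
  obtain ⟨i, hi, hmin⟩ := ex_min hne0
  have hil : i ∉ p.lo := fun h => Finset.disjoint_left.1 hd h hi
  set A := p.hi \ p.lo with hA
  have hup : ∀ s ∈ A, hh hI (upc p s) p'' = 0 := by
    intro s hs
    have hs' := Finset.mem_sdiff.1 hs
    exact hh_dis hI p'' (upc_dis hs'.1 (hp hs'.1))
  have hdn : ∀ s ∈ A, hh hI (dnc p s) p'' = if i ∈ p.hi.erase s then 0 else
      - sgn (A.erase s) i * (if p'' = insc hI (dnc p s) i then 1 else 0) := by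
    intro s hs
    have hs' := Finset.mem_sdiff.1 hs
    rw [hh_two hI p'' (i := i)]
    · unfold h2
      rw [deg_dnc hs, dnc_hi hs'.2]
    · rw [dnc_lo]; exact hd
    · rw [dnc_hi hs'.2]
      exact (Finset.erase_subset _ _).trans hp
    · exact hi
    · exact hmin
  have hlo : ∀ (q : Itv cs) (s : B), s ∈ I → s ∈ q.hi → ¬ p'' = upc q s := by
    intro q s hs hq he
    rw [he, upc_lo hq] at hd''
    exact Finset.disjoint_left.1 hd'' (Finset.mem_insert_self _ _) hs
  by_cases hl : i ∈ p.hi
  · -- `i ∈ hi`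
    have hiA : i ∈ A := Finset.mem_sdiff.2 ⟨hl, hil⟩
    have hT1 : ∑ p', hh hI p p' * kinc p' p'' = 0 := by
      refine Finset.sum_eq_zero fun q _ => ?_
      rw [hh_two hI _ hd hp hi hmin]
      unfold h2
      rw [if_pos hl, zero_mul]
    rw [hT1, sub_zero, Finset.sum_eq_single i]
    · have e : insc hI (dnc p i) i = p := by
        apply Itv.ext
        · rw [insc_lo, dnc_lo]
        · rw [insc_hi hI _ hi, dnc_hi hil, Finset.insert_erase hl]
          rw [dnc_hi hil]
          exact (Finset.erase_subset _ _).trans hp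
      rw [hup i hiA, hdn i hiA, if_neg (Finset.notMem_erase i _), e,
        sgn_erase_ge (lt_irrefl i)]
      by_cases h : p = p''
      · rw [if_pos h, if_pos h.symm]
        linarith [sgn_sq A i]
      · rw [if_neg h, if_neg (Ne.symm h)]
        ring
    · intro s hs hne
      rw [hdn s hs, hup s hs, if_pos (Finset.mem_erase.2 ⟨hne.symm, hl⟩), sub_zero, mul_zero]
    · intro h; exact absurd hiA h
  · -- `i ∉ hi`
    have hiA : i ∉ A := fun h => hl (Finset.mem_sdiff.1 h).1
    have hT1 : ∑ p', hh hI p p' * kinc p' p'' = - sgn A i * kinc (insc hI p i) p'' := by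
      rw [Finset.sum_eq_single (insc hI p i)]
      · rw [hh_two hI _ hd hp hi hmin]
        unfold h2
        rw [if_neg hl, if_pos rfl, mul_one]
      · intro q _ hq
        rw [hh_two hI _ hd hp hi hmin]
        unfold h2
        rw [if_neg hl, if_neg hq, mul_zero, zero_mul]
      · intro h; exact absurd (Finset.mem_univ _) h
    have hih := insc_hi hI hp hi
    have e1 : dnc (insc hI p i) i = p := by
      apply Itv.ext
      · rw [dnc_lo, insc_lo]
      · rw [dnc_hi (by rw [insc_lo]; exact hil), hih, Finset.erase_insert hl]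
    have hK : kinc (insc hI p i) p'' = - (sgn A i * (if p = p'' then 1 else 0)) -
        ∑ s ∈ A, sgn (insert i A) s * (if p'' = dnc (insc hI p i) s then 1 else 0) := by
      have hz : ∀ s, s ∈ I → s ∈ insert i p.hi → ¬ p'' = upc (insc hI p i) s := by
        intro s h1 h2
        exact hlo _ s h1 (by rw [hih]; exact h2)
      rw [kinc_eq, insc_sdiff hI hd hp hi, Finset.sum_insert hiA, sgn_ins_self hiA, e1,
        if_neg (hz i hi (Finset.mem_insert_self _ _))]
      have e2 : ∑ s ∈ A, sgn (insert i A) s * ((if p'' = upc (insc hI p i) s then 1 else 0) -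
          (if p'' = dnc (insc hI p i) s then 1 else 0)) =
          - ∑ s ∈ A, sgn (insert i A) s * (if p'' = dnc (insc hI p i) s then 1 else 0) := by
        rw [← Finset.sum_neg_distrib]
        refine Finset.sum_congr rfl fun s hs => ?_
        have hs' := Finset.mem_sdiff.1 hs
        rw [if_neg (hz s (hp hs'.1) (Finset.mem_insert_of_mem hs'.1))]
        ring
      rw [e2]
      by_cases h : p = p''
      · rw [if_pos h, if_pos h.symm]
        ring
      · rw [if_neg h, if_neg (Ne.symm h)]
        ring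
    have e3 : - sgn A i * kinc (insc hI p i) p'' = (if p = p'' then 1 else 0) +
        ∑ s ∈ A, sgn A i * (sgn (insert i A) s *
          (if p'' = dnc (insc hI p i) s then 1 else 0)) := by
      rw [hK, ← Finset.mul_sum]
      have := sgn_sq A i
      linear_combination (if p = p'' then (1 : ℤ) else 0) * this
    rw [hT1, e3, sub_add_cancel_left, ← Finset.sum_neg_distrib, ← Finset.sum_sub_distrib]
    refine Finset.sum_eq_zero fun s hs => ?_
    have hs' := Finset.mem_sdiff.1 hs
    have hne : s ≠ i := fun e => hl (e ▸ hs'.1)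
    have e4 : insc hI (dnc p s) i = dnc (insc hI p i) s := by
      apply Itv.ext
      · rw [insc_lo, dnc_lo, dnc_lo, insc_lo]
      · rw [insc_hi hI _ hi, dnc_hi hs'.2, dnc_hi (by rw [insc_lo]; exact hs'.2), hih,
          Finset.erase_insert_of_ne hne.symm]
        rw [dnc_hi hs'.2]
        exact (Finset.erase_subset _ _).trans hp
    rw [hup s hs, hdn s hs, if_neg (fun h => hl (Finset.mem_of_mem_erase h)), e4, ← mul_assoc,
      sgn_ins hiA hs]
    ring

end

/-- Job KH. -/
theorem kh : S_KH := by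
  intro B _ _ M W _ cs I hI
  refine ⟨hh hI, fun p p' h => hh_ne hI h, ?_, ?_⟩
  · intro p h1 h2 p'
    unfold hh
    subst h1
    rw [h2]
    simp
  · intro p hd hne p'' hd'' hD
    by_contra hk
    apply hD
    rw [sum_filter_hh hI p p'']
    by_cases h3 : (p.hi \ I).Nonempty
    · exact main1 hI hd hd'' h3 hk
    · have hp : p.hi ⊆ I := by
        rw [Finset.not_nonempty_iff_eq_empty, Finset.sdiff_eq_empty_iff_subset] at h3
        exact h3
      refine main2 hI hd hd'' hp ?_
      by_contra hI0
      rw [Finset.not_nonempty_iff_eq_empty] at hI0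
      exact hne ⟨hI0, Finset.subset_empty.1 (hI0 ▸ hp)⟩

end Pool.Agent.Q68.ZD
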