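import Pool.Agent.Q68.ZD.Kc

/-!
Job LIM (project ZD of helper169): the deformed Euler characteristic of the Davis chamber.
-/

set_option autoImplicit false

namespace Pool.Agent.Q68.ZD

open Pool.Agent.Q169.ZD Q27.Cox Filter Topology

open scoped Classical

section

variable {B : Type} {M : CoxeterMatrix B} {W : Type} [Group W] {cs : CoxeterSystem M W}
variable [LinearOrder B]

/-- the cell `(lo ∖ {s}, hi)` -/
noncomputable def era (p : Itv cs) (s : B) : Itv cs :=
  ⟨p.lo.erase s, p.hi, (Finset.erase_subset s p.lo).trans p.le, p.sph⟩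

theorem era_lo (p : Itv cs) (s : B) : (era p s).lo = p.lo.erase s := rfl

theorem era_hi (p : Itv cs) (s : B) : (era p s).hi = p.hi := rfl

theorem era_sdiff {p : Itv cs} {s : B} (h : s ∈ p.lo) :
    (era p s).hi \ (era p s).lo = insert s (p.hi \ p.lo) := by
  have := p.le h
  rw [era_hi, era_lo]
  ext x
  simp only [Finset.mem_sdiff, Finset.mem_insert, Finset.mem_erase]
  constructor
  · rintro ⟨h1, h2⟩
    by_cases hx : x = s
    · exact Or.inl hx
    · exact Or.inr ⟨h1, fun h3 => h2 ⟨hx, h3⟩⟩
  · rintro (rfl | ⟨h1, h2⟩)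
    · exact ⟨this, fun h3 => h3.1 rfl⟩
    · exact ⟨h1, fun h3 => h2 h3.2⟩

theorem era_deg {p : Itv cs} {s : B} (h : s ∈ p.lo) : (era p s).deg = p.deg + 1 := by
  unfold Itv.deg
  rw [era_sdiff h, Finset.card_insert_of_notMem]
  rw [Finset.mem_sdiff]
  exact fun h' => h'.2 h

theorem upc_deg {p : Itv cs} {s : B} (h : s ∈ p.hi \ p.lo) : (upc p s).deg + 1 = p.deg := by
  unfold Itv.deg
  rw [deg_upc h, Finset.card_erase_add_one h]

theorem upc_era {p : Itv cs} {s : B} (h : s ∈ p.lo) : upc (era p s) s = p := by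
  apply Itv.ext
  · rw [upc_lo (by rw [era_hi]; exact p.le h), era_lo, Finset.insert_erase h]
  · rw [upc_hi, era_hi]

theorem era_upc {p : Itv cs} {s : B} (h : s ∈ p.hi) (h' : s ∉ p.lo) : era (upc p s) s = p := by
  apply Itv.ext
  · rw [era_lo, upc_lo h, Finset.erase_insert h']
  · rw [era_hi, upc_hi]

/-- toggling an element -/
noncomputable def tog (p : Itv cs) (s : B) : Itv cs := if s ∈ p.lo then era p s else upc p s

theorem tog_hi (p : Itv cs) (s : B) : (tog p s).hi = p.hi := by
  unfold tog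
  split_ifs
  · exact era_hi _ _
  · exact upc_hi _ _

theorem tog_tog {p : Itv cs} {s : B} (h : s ∈ p.hi) : tog (tog p s) s = p := by
  by_cases h1 : s ∈ p.lo
  · have e : tog p s = era p s := if_pos h1
    have h2 : s ∉ (era p s).lo := by
      rw [era_lo]; exact Finset.notMem_erase s _
    rw [e]
    unfold tog
    rw [if_neg h2, upc_era h1]
  · have e : tog p s = upc p s := if_neg h1
    have h2 : s ∈ (upc p s).lo := by
      rw [upc_lo h]; exact Finset.mem_insert_self s _
    rw [e]
    unfold tog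
    rw [if_pos h2, era_upc h h1]

theorem tog_sign {p : Itv cs} {s : B} (h : s ∈ p.hi) :
    (-1 : ℝ) ^ p.deg + (-1 : ℝ) ^ (tog p s).deg = 0 := by
  by_cases h1 : s ∈ p.lo
  · have e : tog p s = era p s := if_pos h1
    rw [e, era_deg h1, pow_succ]
    ring
  · have e : tog p s = upc p s := if_neg h1
    rw [e, ← upc_deg (Finset.mem_sdiff.2 ⟨h, h1⟩), pow_succ]
    ring

theorem tog_ne {p : Itv cs} {s : B} (h : s ∈ p.hi) : tog p s ≠ p := by
  intro he
  by_cases h1 : s ∈ p.lo
  · have e : tog p s = era p s := if_pos h1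
    rw [e] at he
    have : s ∈ (era p s).lo := by rw [he]; exact h1
    rw [era_lo] at this
    exact Finset.notMem_erase s _ this
  · have e : tog p s = upc p s := if_neg h1
    rw [e] at he
    have : s ∈ (upc p s).lo := by rw [upc_lo h]; exact Finset.mem_insert_self s _
    rw [he] at this
    exact h1 this

theorem par_empty_finite : Finite (par cs ((∅ : Finset B) : Set B)) := by
  unfold par
  rw [Finset.coe_empty, Set.image_empty, Subgroup.closure_empty]
  infer_instance

theorem euler [Finite B] : ∑ p : Itv cs, (-1 : ℝ) ^ p.deg = 1 := by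
  rw [← Finset.sum_filter_add_sum_filter_not Finset.univ (fun p : Itv cs => p.hi.Nonempty)]
  have h1 : ∑ p ∈ Finset.univ.filter (fun p : Itv cs => p.hi.Nonempty), (-1 : ℝ) ^ p.deg = 0 := by
    refine Finset.sum_involution
      (fun p hp => tog p (p.hi.min' (Finset.mem_filter.1 hp).2)) ?_ ?_ ?_ ?_
    · intro p hp
      exact tog_sign (Finset.min'_mem _ _)
    · intro p hp _
      exact tog_ne (Finset.min'_mem _ _)
    · intro p hp
      rw [Finset.mem_filter] at hp ⊢
      refine ⟨Finset.mem_univ _, ?_⟩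
      rw [tog_hi]
      exact hp.2
    · intro p hp
      simp only [tog_hi]
      exact tog_tog (Finset.min'_mem _ _)
  have h2 : Finset.univ.filter (fun p : Itv cs => ¬ p.hi.Nonempty) =
      {⟨∅, ∅, subset_rfl, par_empty_finite⟩} := by
    ext p
    rw [Finset.mem_filter, Finset.mem_singleton, Finset.not_nonempty_iff_eq_empty]
    constructor
    · rintro ⟨_, h⟩
      apply Itv.ext
      · exact Finset.subset_empty.1 (h ▸ p.le)
      · exact h
    · rintro rfl
      exact ⟨Finset.mem_univ _, rfl⟩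
  rw [h1, h2, Finset.sum_singleton, zero_add]
  unfold Itv.deg
  simp

end

/-- Job LIM. -/
theorem lim : S_LIM := by
  intro B _ _ M W _ cs
  have hfin : ∀ p : Itv cs, Finite (par cs (p.lo : Set B)) := fun p =>
    fin_mono (Finset.coe_subset.2 p.le) p.sph
  let D : Itv cs → ℝ → ℝ := fun p r => ∑ᶠ u : par cs (p.lo : Set B), r ^ cs.length (u : W)
  have hD : ∀ p, Continuous (D p) := by
    intro p
    have := hfin p
    have := Fintype.ofFinite (par cs (p.lo : Set B))
    have e : D p = fun r => ∑ u : par cs (p.lo : Set B), r ^ cs.length (u : W) := by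
      funext r
      exact finsum_eq_sum_of_fintype _
    rw [e]
    fun_prop
  have hD0 : ∀ p, D p 0 = 1 := by
    intro p
    have e : D p 0 = ∑ᶠ u : par cs (p.lo : Set B), if u = 1 then (1 : ℝ) else 0 := by
      refine finsum_congr fun u => ?_
      by_cases hu : u = 1
      · rw [if_pos hu, hu]
        simp
      · rw [if_neg hu, zero_pow]
        intro h0
        apply hu
        have h1 : (u : W) = 1 := cs.length_eq_zero_iff.1 h0
        exact Subtype.ext h1
    rw [e]
    rw [finsum_eq_single _ (1 : par cs (p.lo : Set B)) (fun u hu => if_neg hu), if_pos rfl]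
  have hc : ContinuousAt (fun r => ∑ p : Itv cs, (-1 : ℝ) ^ p.deg / D p r) 0 := by
    refine tendsto_finsetSum _ fun p _ => ?_
    refine Tendsto.div tendsto_const_nhds ((hD p).tendsto 0) ?_
    rw [hD0]
    exact one_ne_zero
  have hv : (∑ p : Itv cs, (-1 : ℝ) ^ p.deg / D p 0) ≠ 0 := by
    simp only [hD0, div_one]
    rw [euler]
    exact one_ne_zero
  have h1 := hc.eventually_ne hv
  have h2 : ∀ᶠ r in 𝓝[>] (0 : ℝ), 0 < r ∧ (∑ p : Itv cs, (-1 : ℝ) ^ p.deg / D p r) ≠ 0 :=
    (eventually_mem_nhdsWithin).and (h1.filter_mono nhdsWithin_le_nhds)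
  obtain ⟨r, hr, hr'⟩ := h2.exists
  exact ⟨r, hr, hr'⟩

end Pool.Agent.Q68.ZD
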