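import Pool.Agent.Q216.ZD.Base

set_option autoImplicit false

/-!
# Project ZD, job ACT
-/

namespace Pool.Agent.Q216.ZD

open Encodable Pool.Agent.Helper227 Pool.Agent.H548R2.Post
open Nat.Partrec (Code)
open Pool.Agent.TH769.TP

/-- the action on finite strings -/
def actF (ps : List Code) (w : List ℕ) (σ : List Bool) : List Bool :=
  w.foldr (fun c s => FF (ps.getD c Code.zero) s) σ

theorem actF_mono (ps : List Code) (w : List ℕ) {σ τ : List Bool} (h : σ <+: τ) :
    actF ps w σ <+: actF ps w τ := by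
  induction w with
  | nil => exact h
  | cons c w ih => exact mon_FF.mono _ _ ih

theorem lim_actF {ps : List Code} {L : ℕ} {T : ℕ → R → R} (hA : Acts ps L T) {w : List ℕ}
    (hw : Wd L w) (X : R) : Lim (actF ps w) X (act T w X) := by
  induction w with
  | nil => exact Lim.id X
  | cons c w ih => exact (ih (wd_tail hw)).comp (lim_FF (hA.via c (hw c (by simp)) _))

theorem t_ACT : S_ACT := by
  intro ps L T hA
  refine ⟨fun x => Wd L x.2.1 ∧ (actF ps x.2.1 x.1)[x.2.2.1]? = some x.2.2.2, ?_, ?_, ?_⟩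
  · refine S1.and ?_ ?_
    · exact S1.all_mem (p := fun (_ : List Bool × (List ℕ × ℕ × Bool)) (c : ℕ) => c < L)
        (S1.of_prim (Primrec.nat_lt.comp Primrec.snd (Primrec.const L)))
        (Primrec.fst.comp Primrec.snd)
    · refine S1.of_prim (Primrec.eq.comp (Primrec.list_getElem?.comp ?_
        (Primrec.fst.comp (Primrec.snd.comp Primrec.snd)))
        (Primrec.option_some.comp (Primrec.snd.comp (Primrec.snd.comp Primrec.snd))))
      have hh : Primrec₂ fun (_ : List Bool × (List ℕ × ℕ × Bool)) (y : ℕ × List Bool) =>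
          FF (ps.getD y.1 Code.zero) y.2 := by
        have h1 : Primrec fun x : (List Bool × (List ℕ × ℕ × Bool)) × (ℕ × List Bool) =>
            (ps.getD x.2.1 Code.zero, x.2.2) :=
          ((Primrec.list_getD Code.zero).comp (Primrec.const ps)
            (Primrec.fst.comp Primrec.snd)).pair (Primrec.snd.comp Primrec.snd)
        exact Pool.Agent.TH769.FB.pf_FF'.comp h1
      exact Primrec.list_foldr (Primrec.fst.comp Primrec.snd) Primrec.fst hh
  · rintro σ τ x h ⟨h1, h2⟩
    refine ⟨h1, ?_⟩
    obtain ⟨ρ, hρ⟩ := actF_mono ps x.1 h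
    show (actF ps x.1 τ)[x.2.1]? = some x.2.2
    have h2' : (actF ps x.1 σ)[x.2.1]? = some x.2.2 := h2
    rw [← hρ]
    have h3 : x.2.1 < (actF ps x.1 σ).length := by
      by_contra hc
      rw [List.getElem?_eq_none (by omega)] at h2'
      cases h2'
    rw [List.getElem?_append_left h3]
    exact h2'
  · rintro X ⟨w, j, b⟩
    show Wd L w ∧ act T w X j = b ↔ ∃ s, Wd L w ∧ (actF ps w (pre X s))[j]? = some b
    constructor
    · rintro ⟨hw, rfl⟩
      obtain ⟨M, hM⟩ := (lim_actF hA hw X).long (j + 1)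
      obtain ⟨n, hn⟩ := (lim_actF hA hw X).ok M
      refine ⟨M, hw, ?_⟩
      have h1 := hM M le_rfl
      rw [hn, length_pre] at h1
      rw [hn, pre_getElem? _ _ _ (by omega)]
    · rintro ⟨s, hw, hs⟩
      obtain ⟨n, hn⟩ := (lim_actF hA hw X).ok s
      refine ⟨hw, ?_⟩
      rw [hn] at hs
      by_cases h1 : j < n
      · rw [pre_getElem? _ _ _ h1] at hs
        exact Option.some.inj hs
      · rw [pre_getElem?_none _ _ _ (by omega)] at hs
        cases hs

end Pool.Agent.Q216.ZD
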