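import Pool.Agent.Q216.ZD.Base

set_option autoImplicit false

/-!
# Project ZD, job PROG
-/

namespace Pool.Agent.Q216.ZD

open Encodable Pool.Agent.Helper227 Pool.Agent.H548R2.Post
open Nat.Partrec (Code)
open Pool.Agent.TH769.TP (Via lab Unb)

theorem t_PROG : S_PROG := by
  intro α _ P hP
  obtain ⟨E, hE, mE, eE⟩ := hP
  obtain ⟨q, ⟨hd, hq⟩, -, eq'⟩ := hE
  obtain ⟨Q, hQ, hQq⟩ : ∃ Q : (List Bool × (α × ℕ × Bool)) → ℕ → Bool,
      Primrec₂ Q ∧ ∀ x k, q x k ↔ Q x k = true :=
    ⟨fun x k => @decide (q x k) (hd (x, k)), hq,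
      fun x k => (@decide_eq_true_iff (q x k) (hd (x, k))).symm⟩
  have eq : ∀ x, E x ↔ ∃ k, Q x k = true := fun x =>
    (eq' x).trans (exists_congr fun k => hQq x k)
  have hq' : ∀ b : Bool, Computable₂ fun (x : α × (List Bool × ℕ)) (k : ℕ) =>
      Q (x.2.1, (x.1, x.2.2, b)) k := by
    intro b
    have h1 : Primrec fun y : (α × (List Bool × ℕ)) × ℕ => (y.1.2.1, (y.1.1, y.1.2.2, b)) :=
      (Primrec.fst.comp (Primrec.snd.comp Primrec.fst)).pair
        ((Primrec.fst.comp Primrec.fst).pair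
          ((Primrec.snd.comp (Primrec.snd.comp Primrec.fst)).pair (Primrec.const b)))
    exact (hQ.comp h1 Primrec.snd).to_comp
  have hor : Computable₂ fun (x : α × (List Bool × ℕ)) (k : ℕ) =>
      (Q (x.2.1, (x.1, x.2.2, true)) k || Q (x.2.1, (x.1, x.2.2, false)) k) :=
    (Primrec.dom_bool₂ or).to_comp.comp (hq' true) (hq' false)
  have h1 : Partrec fun x : α × (List Bool × ℕ) => Nat.rfind fun k => Part.some
      (Q (x.2.1, (x.1, x.2.2, true)) k || Q (x.2.1, (x.1, x.2.2, false)) k) :=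
    Partrec.rfind hor.partrec₂
  have h2 : Partrec fun x : α × (List Bool × ℕ) => (Nat.rfind fun k => Part.some
      (Q (x.2.1, (x.1, x.2.2, true)) k || Q (x.2.1, (x.1, x.2.2, false)) k)).map
      (fun k => cond (Q (x.2.1, (x.1, x.2.2, true)) k) 1 0) :=
    Partrec.map h1 (Computable.cond (hq' true) (Computable.const 1) (Computable.const 0))
  obtain ⟨c, hc⟩ := Nat.Partrec.Code.exists_code.1 h2
  have hev : ∀ (a : α) (σ : List Bool) (n v : ℕ), v ∈ c.eval (encode (a, (σ, n))) ↔
      v ∈ (Nat.rfind fun k => Part.some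
      (Q (σ, (a, n, true)) k || Q (σ, (a, n, false)) k)).map
      (fun k => cond (Q (σ, (a, n, true)) k) 1 0) := by
    intro a σ n v
    rw [hc]
    simp only [encodek, Part.coe_some, Part.bind_some]
    simp
  refine ⟨fun a => Code.curry c (encode a), ?_, ?_⟩
  · exact Code.primrec₂_curry.comp (Primrec.const c) Primrec.encode
  · intro a X Y hXY
    have hcur : ∀ (σ : List Bool) (n : ℕ), (Code.curry c (encode a)).eval (encode (σ, n)) =
        c.eval (encode (a, (σ, n))) := by
      intro σ n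
      rw [Code.eval_curry]
      rfl
    have key : ∀ s n v, v ∈ c.eval (encode (a, (pre X s, n))) → v = (Y n).toNat := by
      intro s n v hv
      rw [hev, Part.mem_map_iff] at hv
      obtain ⟨k, hk, rfl⟩ := hv
      have h3 := Nat.rfind_spec hk
      have h4 : (Q (pre X s, (a, n, true)) k || Q (pre X s, (a, n, false)) k) = true :=
        (Part.mem_some_iff.1 h3).symm
      cases h5 : Q (pre X s, (a, n, true)) k with
      | true =>
        have h6 : Y n = true := (hXY n true).1 ((eE X (a, n, true)).2 ⟨s, (eq _).2 ⟨k, h5⟩⟩)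
        rw [h6]
        rfl
      | false =>
        rw [h5, Bool.false_or] at h4
        have h6 : Y n = false := (hXY n false).1 ((eE X (a, n, false)).2 ⟨s, (eq _).2 ⟨k, h4⟩⟩)
        rw [h6]
        rfl
    show Via (Code.curry c (encode a)) X Y
    intro n v
    refine ⟨fun ⟨s, hs⟩ => key s n v (by rwa [hcur] at hs), fun hv => ?_⟩
    obtain ⟨s, hs⟩ := (eE X (a, n, Y n)).1 ((hXY n (Y n)).2 rfl)
    obtain ⟨k, hk⟩ := (eq _).1 hs
    have hdom : (c.eval (encode (a, (pre X s, n)))).Dom := by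
      have h3 : (Nat.rfind fun k => Part.some
        (Q (pre X s, (a, n, true)) k || Q (pre X s, (a, n, false)) k)).Dom := by
        refine Nat.rfind_dom.2 ⟨k, Part.mem_some_iff.2 ?_, fun _ => trivial⟩
        cases hY : Y n with
        | true =>
          rw [hY] at hk
          rw [hk, Bool.true_or]
        | false =>
          rw [hY] at hk
          rw [hk, Bool.or_true]
      obtain ⟨k', hk'⟩ := Part.dom_iff_mem.1 h3
      exact Part.dom_iff_mem.2 ⟨_, (hev _ _ _ _).2 (Part.mem_map _ hk')⟩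
    obtain ⟨v', hv'⟩ := Part.dom_iff_mem.1 hdom
    have := key s n v' hv'
    rw [hv, ← this]
    exact ⟨s, by rw [hcur]; exact hv'⟩

end Pool.Agent.Q216.ZD
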